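import Pool.Agent.Q312.UF.Places

/-!
# One formula for all fields with many places, and the models of their common theory

Let `ℓ` be a prime number. The starting result `UnramifiedNorms` shows that a field which is NIP, or
`NIP_n`, or NTP2 has fewer than `N` pairwise incomparable places whose value group is not
`ℓ`-divisible and whose residue field has a separable extension of degree `ℓ`. Here the witness is
uniform: for every `n` there is one formula of the language of rings, not depending on the field,
which has an `n`-independence pattern of size `m` in every field with `m ^ n` such places, and there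
is one formula with a tree property array of size `m` in every field with `m ^ 2` such places.

So not only the single fields but all models of their common theory fail to be NIP, `NIP_n` or NTP2:
every field in which all sentences hold that are true in all fields with `N` such places for some
`N`, for example all ultraproducts of fields whose numbers of such places tend to infinity. By the
results on algebraic extensions (`InfiniteAlgebraicExtensions`, library `Pool.Agent.Q312.AE`) this
applies to the algebraic extensions, with degree not divisible by `ℓ^∞`, of infinite finitely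
generated fields, and of the fields of fractions of Noetherian domains of dimension at least two or
with many maximal ideals.
-/

set_option autoImplicit false

namespace Pool.Agent.Results.MP_3554b5_lc.CommonTheory

open Pool.Agent.W882.Nip3 Pool.Agent.Results.MP_3554b5_lc.UnramifiedNorms FirstOrder
open FirstOrder.Language

/-- The field `K` has `N` pairwise incomparable places with real valuations whose value groups are
not `ℓ`-divisible and whose residue fields have separable extensions of degree `ℓ`. -/
def ManyPlaces (ℓ N : ℕ) (K : Type) [Field K] : Prop :=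
  ∃ P : Fin N → ValuedPlace K, (Pairwise fun i j => (P i).Incomparable (P j)) ∧
    ∀ i, ¬ (P i).Divisible ℓ ∧ (P i).HasExtension ℓ

/-- The formula `φ` has an `n`-independence pattern of size `m` in `K`: there are `n` rows of `m`
parameter tuples each such that every set `S` of choices of one tuple from each row is defined by
some `a`. -/
def IndependencePattern (K : Type) [Field K] [Ring.CompatibleRing K] {p q n : ℕ}
    (φ : Language.ring.Formula (Fin p ⊕ (Fin n × Fin q))) (m : ℕ) : Prop :=
  ∃ b : Fin n → Fin m → Fin q → K, ∀ S : Set (Fin n → Fin m),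
    ∃ a : Fin p → K, ∀ i : Fin n → Fin m,
      (φ.Realize (Sum.elim a (fun jl : Fin n × Fin q => b jl.1 (i jl.1) jl.2)) ↔ i ∈ S)

/-- The formula `φ` has an `m` by `m` array of parameter tuples in `K` with pairwise inconsistent
instances in each row and consistent instances along each path. -/
def TreePattern (K : Type) [Field K] [Ring.CompatibleRing K] {p q : ℕ}
    (φ : Language.ring.Formula (Fin p ⊕ Fin q)) (m : ℕ) : Prop :=
  ∃ a : Fin m → Fin m → Fin q → K,
    (∀ i j j', j ≠ j' → ¬ ∃ x : Fin p → K,
      φ.Realize (Sum.elim x (a i j)) ∧ φ.Realize (Sum.elim x (a i j'))) ∧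
    ∀ η : Fin m → Fin m, ∃ x : Fin p → K, ∀ i, φ.Realize (Sum.elim x (a i (η i)))

/-- All sentences hold in `K` which, for some `N`, are true in all fields with `ManyPlaces ℓ N`. -/
def LimitModel (ℓ : ℕ) (K : Type) [Field K] [Ring.CompatibleRing K] : Prop :=
  ∀ σ : Language.ring.Sentence,
    (∃ N : ℕ, ∀ (F : Type) [Field F] [Ring.CompatibleRing F], ManyPlaces ℓ N F → F ⊨ σ) → K ⊨ σ

/-- The field `κ` has a separable extension of degree `ℓ`. -/
def HasExtension (κ : Type) [Field κ] (ℓ : ℕ) : Prop :=
  ∃ (L : Type) (_ : Field L) (_ : Algebra κ L), Algebra.IsSeparable κ L ∧ Module.finrank κ L = ℓ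

/-- The degree of the extension `κ` of `k` is not divisible by `ℓ^∞`: for some `m` the number
`ℓ ^ m` does not divide the degree of any finite subextension. -/
def NotDivisible (ℓ : ℕ) (k κ : Type) [Field k] [Field κ] [Algebra k κ] : Prop :=
  ∃ m : ℕ, ∀ L : IntermediateField k κ, FiniteDimensional k L → ¬ ℓ ^ m ∣ Module.finrank k L

theorem not_of_limit {ℓ : ℕ} (hℓ : 1 ≤ ℓ) (K : Type) [Field K] [Ring.CompatibleRing K]
    (h : LimitModel ℓ K) : ¬ NIPField K ∧ (∀ n, ¬ NIPnField n K) ∧ ¬ NTP2Field K := by
  have hn : ∀ n, ¬ NIPnField n K := by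
    intro n hK
    refine hK _ _ (fE n ℓ 0) fun m => ?_
    have h1 : K ⊨ sN (fE n ℓ 0) m := h _ ⟨m ^ n, fun F _ _ hF =>
      (realize_sN F _ m).2 (Pool.Agent.Q312.UF.patN_of_places hℓ n m F hF)⟩
    exact (realize_sN K _ m).1 h1
  refine ⟨fun hK => hn 1 (nip_one hK), hn, fun hK => ?_⟩
  obtain ⟨m, hm⟩ := hK _ _ (fT' ℓ 0)
  have h1 : K ⊨ sT (fT' ℓ 0) m := h _ ⟨m * m, fun F _ _ hF =>
    (realize_sT F _ m).2 (Pool.Agent.Q312.UF.patT_of_places hℓ m F hF)⟩
  obtain ⟨a, ha, hb⟩ := (realize_sT K _ m).1 h1
  obtain ⟨η, hη⟩ := hm a ha
  exact hη (hb η)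

/-- Let `ℓ` be a prime number.

(1) For every `n` there is one formula of the language of rings which, for all `m`, has an
`n`-independence pattern of size `m` in every field with `ManyPlaces ℓ (m ^ n)`. There is one
formula of the language of rings which, for all `m`, has an `m` by `m` array as in the definition of
NTP2 in every field with `ManyPlaces ℓ (m * m)`.

(2) Let `K` be a field in which all sentences hold that, for some `N`, are true in all fields with
`ManyPlaces ℓ N`. Then `K` is not NIP, not `NIP_n` for any `n`, and not NTP2.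

(3) This holds for every field which is elementarily equivalent to an ultraproduct of fields `F i`
such that for every `N` the set of all `i` with `ManyPlaces ℓ N (F i)` belongs to the ultrafilter.

(4) Let `O` be a valuation ring of a field `K` (for example `O = K`), and let its residue field `κ`
be algebraic over a field `k`, with a degree which is not divisible by `ℓ^∞`. If `k` is infinite and
finitely generated as a field, or the field of fractions of a Noetherian domain of dimension at
least two, then `ManyPlaces ℓ N K` for all `N`. If `k` is the field of fractions of a Noetherian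
domain `A`, then `ManyPlaces ℓ N K` for every `N` such that `A` has at least `N` nonzero maximal
ideals `𝔪` for which every finite extension of `A ⧸ 𝔪` has a separable extension of degree `ℓ`. -/
theorem result (ℓ : ℕ) (hℓ : ℓ.Prime) :
    ((∀ n : ℕ, ∃ (p q : ℕ) (φ : Language.ring.Formula (Fin p ⊕ (Fin n × Fin q))),
        ∀ (m : ℕ) (K : Type) [Field K] [Ring.CompatibleRing K],
          ManyPlaces ℓ (m ^ n) K → IndependencePattern K φ m) ∧
      ∃ (p q : ℕ) (φ : Language.ring.Formula (Fin p ⊕ Fin q)),
        ∀ (m : ℕ) (K : Type) [Field K] [Ring.CompatibleRing K],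
          ManyPlaces ℓ (m * m) K → TreePattern K φ m) ∧
    (∀ (K : Type) [Field K] [Ring.CompatibleRing K], LimitModel ℓ K →
      ¬ NIPField K ∧ (∀ n, ¬ NIPnField n K) ∧ ¬ NTP2Field K) ∧
    (∀ (I : Type) (F : I → Type) [∀ i, Field (F i)] [∀ i, Ring.CompatibleRing (F i)]
      (u : Ultrafilter I), (∀ N : ℕ, ∀ᶠ i in (u : Filter I), ManyPlaces ℓ N (F i)) →
      ∀ (K : Type) [Field K] [Ring.CompatibleRing K],
        Language.ring.ElementarilyEquivalent K ((u : Filter I).Product F) →
        ¬ NIPField K ∧ (∀ n, ¬ NIPnField n K) ∧ ¬ NTP2Field K) ∧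
    (∀ (K : Type) [Field K] (O : ValuationSubring K) (κ : Type) [Field κ] (π : O →+* κ),
      Function.Surjective π → ∀ (k : Type) [Field k] [Algebra k κ] [Algebra.IsAlgebraic k κ],
      NotDivisible ℓ k κ →
        (Infinite k → Field.FG k → ∀ N, ManyPlaces ℓ N K) ∧
        ∀ (A : Type) [CommRing A] [IsDomain A] [IsNoetherianRing A] [Algebra A k]
          [IsFractionRing A k],
          (2 ≤ ringKrullDim A → ∀ N, ManyPlaces ℓ N K) ∧
          ∀ N : ℕ, (N : ℕ∞) ≤ {𝔪 : Ideal A | 𝔪.IsMaximal ∧ 𝔪 ≠ ⊥ ∧
              ∀ (κ' : Type) [Field κ'] (f : A ⧸ 𝔪 →+* κ'),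
                f.Finite → HasExtension κ' ℓ}.encard →
            ManyPlaces ℓ N K) := by
  refine ⟨⟨fun n => ⟨_, _, fE n ℓ 0, fun m K _ _ hK =>
    Pool.Agent.Q312.UF.patN_of_places hℓ.one_lt.le n m K hK⟩,
    ⟨_, _, fT' ℓ 0, fun m K _ _ hK =>
      Pool.Agent.Q312.UF.patT_of_places hℓ.one_lt.le m K hK⟩⟩,
    fun K _ _ hK => not_of_limit hℓ.one_lt.le K hK, ?_, ?_⟩
  · intro I F _ _ u hu K _ _ hKu
    refine not_of_limit hℓ.one_lt.le K ?_
    rintro σ ⟨N, hN⟩
    rw [elementarilyEquivalent_iff.1 hKu σ, Ultraproduct.sentence_realize]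
    filter_upwards [hu N] with i hi
    exact hN (F i) hi
  · intro K _ O κ _ π hπ k _ _ _ hb
    refine ⟨fun h1 h2 N => ?_, fun A _ _ _ _ _ => ⟨fun hdim N => ?_, fun N hN => ?_⟩⟩
    · exact Pool.Agent.Q312.UF.places_of_residue K O κ π hπ
        (Pool.Agent.Q312.UF.vals_of_fg hℓ N κ k hb)
    · refine Pool.Agent.Q312.UF.places_of_residue K O κ π hπ
        (Pool.Agent.Q312.UF.vals_of_dim hℓ N κ A k hb fun h => ?_)
      have h1 := hdim.trans h
      exact absurd h1 (by decide)
    · refine Pool.Agent.Q312.UF.places_of_residue K O κ π hπ ?_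
      by_cases hdim : ringKrullDim A ≤ 1
      swap
      · exact Pool.Agent.Q312.UF.vals_of_dim hℓ N κ A k hb hdim
      obtain ⟨P, hP1, hP2⟩ := Pool.Agent.Y562.NN.exists_seq _ N hN
      have hp : ∀ i, (P i).IsPrime := fun i => (hP2 i).1.isPrime
      rw [ringKrullDim_le_iff_height_le] at hdim
      refine Pool.Agent.Q312.UF.vals_of_primes hℓ N κ A k hb P hP1 hp (fun i => (hP2 i).2.1)
        (fun i => ?_) (fun i => ?_)
      · have h2 := hdim (hp i)
        exact_mod_cast h2
      · have hm : (P i).IsMaximal := (hP2 i).1
        exact Pool.Agent.Q312.AE.hasSepAll_of_quotient (P i) ℓ fun κ _ f hf => (hP2 i).2.2 κ f hf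

end Pool.Agent.Results.MP_3554b5_lc.CommonTheory
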