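import Pool.Agent.Q312.AE.FG

/-!
# Infinite algebraic extensions which are NIP, `NIP_n` or NTP2

Let `k` be an infinite field which is finitely generated over its prime field, `ℓ` a prime number
and `κ` an algebraic extension of `k`, in general of infinite degree and not normal, whose degree is
not divisible by `ℓ^∞`: there is `m` such that `ℓ ^ m` does not divide the degree of any finite
subextension. Then the pure field `κ` is not NIP, not `NIP_n` for any `n` and not NTP2, and it is
not a residue field of a field with one of these properties. So the conjecture of Shelah (`S14569`)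
holds for all these fields. More generally `k` may be the field of fractions of a Noetherian domain
of dimension at least two, or of one of dimension one with many maximal ideals whose residue fields
have separable extensions of degree `ℓ`.

The proof extends the discrete valuations of a finite subextension to valuations of `κ` whose value
groups are not `ℓ`-divisible and whose residue fields have separable extensions of degree `ℓ`: the
extension `κ` embeds into a maximal extension of degree prime to `ℓ` of the completion
(`Pool.Agent.Q312.AE.exists_embedding`, by the theorem of Isaacs), and the residue degrees and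
ramification indices are prime to `ℓ` (`Pool.Agent.Q312.AE.exists_extension_val`). It uses the
starting results `UnramifiedNorms` and the library of `NoetherianDomains` (`Pool.Agent.Y562.NN`).
`NIPField`, `NIPnField`, `NTP2Field` are defined in `Pool.Agent.W882.Nip3.Defs`.
-/

set_option autoImplicit false

namespace Pool.Agent.Results.MP_3554b5_lc.InfiniteAlgebraicExtensions

open Pool.Agent.W882.Nip3

/-- The field `κ` has a separable extension of degree `ℓ`. -/
def HasExtension (κ : Type) [Field κ] (ℓ : ℕ) : Prop :=
  ∃ (L : Type) (_ : Field L) (_ : Algebra κ L), Algebra.IsSeparable κ L ∧ Module.finrank κ L = ℓ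

/-- The degree of the extension `κ` of `k` is not divisible by `ℓ^∞`: for some `m` the number
`ℓ ^ m` does not divide the degree of any finite subextension. -/
def NotDivisible (ℓ : ℕ) (k κ : Type) [Field k] [Field κ] [Algebra k κ] : Prop :=
  ∃ m : ℕ, ∀ L : IntermediateField k κ, FiniteDimensional k L → ¬ ℓ ^ m ∣ Module.finrank k L

/-- Let `K` be a field which is NIP (the hypothesis of `S14569`), or `NIP_n` for some `n`, or
`NTP2`, and `ℓ` a prime number. There is a number `N`, depending only on `ℓ` and the theory of `K`,
with the following property. Let `K'` be a field elementarily equivalent to `K` (for example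
`K' = K`), `O` a valuation ring of `K'` (for example `O = K'`), `κ` its residue field, and let `κ`
be algebraic over a field `k`, with a degree which is not divisible by `ℓ^∞`.

(1) The field `k` is finite or it is not finitely generated as a field.

(2) Let `k` be the field of fractions of a Noetherian domain `A`. Then `A` has dimension at most
one, and it has fewer than `N` nonzero maximal ideals `𝔪` for which every finite extension of the
field `A ⧸ 𝔪` has a separable extension of degree `ℓ`. -/
theorem result (K : Type) [Field K] [FirstOrder.Ring.CompatibleRing K]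
    (hK : NIPField K ∨ (∃ n, NIPnField n K) ∨ NTP2Field K) (ℓ : ℕ) (hℓ : ℓ.Prime) :
    ∃ N : ℕ, ∀ (K' : Type) [Field K'] [FirstOrder.Ring.CompatibleRing K'],
      FirstOrder.Language.ring.ElementarilyEquivalent K K' →
      ∀ (O : ValuationSubring K') (κ : Type) [Field κ] (π : O →+* κ), Function.Surjective π →
      ∀ (k : Type) [Field k] [Algebra k κ] [Algebra.IsAlgebraic k κ], NotDivisible ℓ k κ →
        (Finite k ∨ ¬ Field.FG k) ∧
        ∀ (A : Type) [CommRing A] [IsDomain A] [IsNoetherianRing A] [Algebra A k]
          [IsFractionRing A k],
          ringKrullDim A ≤ 1 ∧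
          {𝔪 : Ideal A | 𝔪.IsMaximal ∧ 𝔪 ≠ ⊥ ∧ ∀ (κ' : Type) [Field κ'] (f : A ⧸ 𝔪 →+* κ'),
            f.Finite → HasExtension κ' ℓ}.encard < N := by
  obtain ⟨N, hN⟩ := (UnramifiedNorms.result K hK).1 ℓ
  refine ⟨N, fun K' _ _ hKK' O κ _ π hπ k _ _ _ hb => ?_⟩
  have hκ := Pool.Agent.Y562.NN.tame_of_residue ℓ N K' (hN K' hKK').1 O κ π hπ
  refine ⟨?_, fun A _ _ _ _ _ => ?_⟩
  · by_contra hcon
    push Not at hcon
    obtain ⟨h1, h2⟩ := hcon
    have h3 : Infinite k := h1
    exact Pool.Agent.Q312.AE.not_fg hℓ N κ hκ k hb
  · have hdim : ringKrullDim A ≤ 1 := Pool.Agent.Q312.AE.dim_le_one' hℓ N κ hκ A k hb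
    refine ⟨hdim, ?_⟩
    by_contra hcon
    rw [not_lt] at hcon
    obtain ⟨P, hP1, hP2⟩ := Pool.Agent.Y562.NN.exists_seq _ N hcon
    have hp : ∀ i, (P i).IsPrime := fun i => (hP2 i).1.isPrime
    rw [ringKrullDim_le_iff_height_le] at hdim
    refine Pool.Agent.Q312.AE.main_step' hℓ N κ hκ A k hb P hP1 hp (fun i => (hP2 i).2.1)
      (fun i => ?_) (fun i => ?_)
    · have h2 := hdim (hp i)
      exact_mod_cast h2
    · have hm : (P i).IsMaximal := (hP2 i).1
      exact Pool.Agent.Q312.AE.hasSepAll_of_quotient (P i) ℓ fun κ _ f hf => (hP2 i).2.2 κ f hf

end Pool.Agent.Results.MP_3554b5_lc.InfiniteAlgebraicExtensions
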