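import Pool.Agent.Q320.MF.Main

/-!
# Fields of meromorphic functions on bounded connected sets are not NIP (MP_3554b5_lc)

Let `E` be a bounded connected set of complex numbers with more than one point and `A` a domain of
functions on `E` (which may also depend on parameters `x`) which are holomorphic on neighbourhoods of
`E`, such that `A` contains all functions which are holomorphic on a neighbourhood of the closure
of `E`. Then the field of fractions of `A` is not NIP, not `NIP_n` for any `n` and not NTP2, and no
finite extension of it is NIP or `NIP_n`. So Shelah's conjecture has no counterexample among these
fields.

Examples: the field of all meromorphic functions on a bounded domain (or on a disc, a half-plane, a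
strip, ..., which are isomorphic fields), the functions of bounded characteristic on a disc
(quotients of bounded functions), the quotients of functions of the disc algebra, the germs of
meromorphic functions along a compact connected set such as a closed disc or a segment (these are
the complex valued quotients of real analytic functions on a compact interval), the same in several
variables on products, and the fields of meromorphic functions on finite branched coverings.

The starting results need places whose completions have dimension greater than one, or real
places; here the residue fields are algebraically closed and the completions have dimension one.

Proof.  The formula says that `x - y` is a square (`x - y₁ - … - y_n` for `NIP_n`). After a Moebius map a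
branch of the logarithm maps a disc around the closure of `E` injectively into a thin neighbourhood
of a real segment, and some points `w_j` of `E` close to given real points `j = 1, …, N`. Composing
with `v ↦ v + √-1 P(v)`, `P` an almost real polynomial, one gets a function `β`, holomorphic on the
disc, which takes the value `j` only at `w_j` and with multiplicity one if `P (j) = 0`, and does not
take the value `j` if `P (j) = 1`. So `β - j` is `z - w_j` times a square in the first case and a
square in the second. Finally at most `log₂ [K : L]` of the functions `z - w_j` become squares in
`K`, by the linear independence of square roots. For NTP2 the formula
says that `(x - y) / (z - w)` and `x - d` are squares, with the values `i + √-1 k` of `β` at `w_i`.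
-/

set_option autoImplicit false

namespace Pool.Agent.Results.MP_3554b5_lc.MeromorphicFunctions

open Pool.Agent.Q320.MF Pool.Agent.W882.Nip3

/-- Let `E` be a bounded connected plane set with more than one point and `A` a domain which is a
ring of functions `f (z, x)` of `z` in `E` and a parameter `x`, holomorphic in `z` on neighbourhoods
of `E`, containing all functions of `z` which are holomorphic on a neighbourhood of the closure of
`E` (`FunRing`). Let `L` be its field of fractions. No finite extension `K` of `L` is NIP (the
hypothesis of `S14569`) or `NIP_n` for some `n`, and `L` is not `NTP2`. -/
theorem result (E : Set ℂ) (hE : IsPreconnected E) (hE2 : E.Nontrivial)
    (hb : Bornology.IsBounded E) (X A : Type) [CommRing A] [IsDomain A] (R : FunRing E X A)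
    (L : Type) [Field L] [Algebra A L] [IsFractionRing A L] :
    (∀ (K : Type) [Field K] [FirstOrder.Ring.CompatibleRing K] [Algebra L K]
      [FiniteDimensional L K], ¬ NIPField K ∧ ∀ n : ℕ, ¬ NIPnField n K) ∧
    ∀ [FirstOrder.Ring.CompatibleRing L], ¬ NTP2Field L :=
  ⟨fun K _ _ _ _ => ⟨not_nip hE hE2 hb R L K, fun n => not_nipn hE hE2 hb R L K n⟩,
    not_ntp2 hE hE2 hb R L⟩

end Pool.Agent.Results.MP_3554b5_lc.MeromorphicFunctions
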